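import Mathlib

/-!
# Module FM-GEN (Mathlib part): the fibres with a nonconstant map of bounded degree from an elliptic curve
-/

set_option autoImplicit false

namespace Pool.Agent.J6H98.FMG

open Polynomial

/-- Theorem of Chevalley (as in `FM.S_chv`) -/
def Chv : Prop :=
  ∀ (β σ : Type) [Finite β] [Finite σ] (S : Set (MvPolynomial (β ⊕ σ) ℂ)) (Ψ : MvPolynomial (β ⊕ σ) ℂ)
    (p : Ideal (MvPolynomial β ℂ)) [p.IsPrime],
    (∀ G : MvPolynomial β ℂ, G ∉ p → ∃ c : β → ℂ, (∀ H ∈ p, MvPolynomial.eval c H = 0) ∧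
      MvPolynomial.eval c G ≠ 0 ∧ ∃ a : σ → ℂ, (∀ Φ ∈ S, MvPolynomial.eval (Sum.elim c a) Φ = 0) ∧
        MvPolynomial.eval (Sum.elim c a) Ψ ≠ 0) →
    ∃ r : MvPolynomial β ℂ, r ∉ p ∧ ∀ c : β → ℂ, (∀ H ∈ p, MvPolynomial.eval c H = 0) →
      MvPolynomial.eval c r ≠ 0 → ∃ a : σ → ℂ, (∀ Φ ∈ S, MvPolynomial.eval (Sum.elim c a) Φ = 0) ∧
        MvPolynomial.eval (Sum.elim c a) Ψ ≠ 0

/-- As `FM.EllPar`. -/
def Ell {β : Type} {M : ℕ} (D : ℕ) (FF : Set (MvPolynomial (β ⊕ Fin (M + 1)) ℂ)) (c : β → ℂ) :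
    Prop :=
  ∃ (a b : ℂ) (P Q : Fin (M + 1) → ℂ[X]), 4 * a ^ 3 + 27 * b ^ 2 ≠ 0 ∧
    (∀ i, (P i).natDegree ≤ D ∧ (Q i).natDegree ≤ D) ∧
    (∀ F ∈ FF, ∀ x y : ℂ, y ^ 2 = x ^ 3 + a * x + b →
      MvPolynomial.eval (Sum.elim c fun i => (P i).eval x + (Q i).eval x * y) F = 0) ∧
    ∃ (i j : Fin (M + 1)) (x y x' y' : ℂ), y ^ 2 = x ^ 3 + a * x + b ∧
      y' ^ 2 = x' ^ 3 + a * x' + b ∧
      ((P i).eval x + (Q i).eval x * y) * ((P j).eval x' + (Q j).eval x' * y') ≠
        ((P j).eval x + (Q j).eval x * y) * ((P i).eval x' + (Q i).eval x' * y')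

/-- the unknowns: the coefficients of the `P i`, of the `Q i`, and `a, b, x, y, x', y'` -/
abbrev Un (M D : ℕ) : Type := (Fin (M + 1) × Fin (D + 1)) ⊕ (Fin (M + 1) × Fin (D + 1)) ⊕ Fin 6

section
variable {β : Type} {M D : ℕ}

/-- the ring of the polynomials in the coordinates and the unknowns -/
abbrev RR (β : Type) (M D : ℕ) : Type := MvPolynomial (β ⊕ Un M D) ℂ

/-- generic polynomial with the coefficients `f l` -/
noncomputable def gpoly {A : Type} [CommRing A] (f : Fin (D + 1) → A) : A[X] :=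
  ∑ l : Fin (D + 1), C (f l) * X ^ (l : ℕ)

theorem gpoly_map {A B : Type} [CommRing A] [CommRing B] (φ : A →+* B) (f : Fin (D + 1) → A) :
    (gpoly f).map φ = gpoly (fun l => φ (f l)) := by
  simp [gpoly, Polynomial.map_sum]

theorem gpoly_deg {A : Type} [CommRing A] (f : Fin (D + 1) → A) : (gpoly f).natDegree ≤ D := by
  refine Polynomial.natDegree_sum_le_of_forall_le _ _ (fun l _ => ?_)
  exact (Polynomial.natDegree_C_mul_X_pow_le _ _).trans (by omega)

theorem gpoly_coeff {A : Type} [CommRing A] (P : A[X]) (hP : P.natDegree ≤ D) :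
    gpoly (fun l : Fin (D + 1) => P.coeff l) = P := by
  conv_rhs => rw [P.as_sum_range' (D + 1) (by omega)]
  rw [gpoly, Fin.sum_univ_eq_sum_range (fun l => C (P.coeff l) * X ^ l) (D + 1)]
  simp [Polynomial.C_mul_X_pow_eq_monomial]

/-- the value of a polynomial of `β ⊕ Fin (M+1)` at the generic parametrized point -/
noncomputable def GF (F : MvPolynomial (β ⊕ Fin (M + 1)) ℂ) : (RR β M D)[X][X] :=
  MvPolynomial.eval₂Hom ((C : (RR β M D)[X] →+* (RR β M D)[X][X]).comp
      ((C : RR β M D →+* (RR β M D)[X]).comp MvPolynomial.C))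
    (Sum.elim (fun b => C (C (MvPolynomial.X (Sum.inl b))))
      (fun i => C (gpoly (fun l => MvPolynomial.X (Sum.inr (Sum.inl (i, l))))) +
        C (gpoly (fun l => MvPolynomial.X (Sum.inr (Sum.inr (Sum.inl (i, l)))))) * X)) F

/-- variable number `n` -/
noncomputable def uv (β : Type) (M D : ℕ) (n : Fin 6) : RR β M D :=
  MvPolynomial.X (Sum.inr (Sum.inr (Sum.inr n)))

/-- the polynomial `X ^ 3 + a X + b` -/
noncomputable def hh {A : Type} [CommRing A] (a b : A) : A[X] := X ^ 3 + C a * X + C b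

/-- the equation of the curve -/
noncomputable def cu {A : Type} [CommRing A] (a b : A) : A[X][X] := X ^ 2 - C (hh a b)

theorem cu_monic {A : Type} [CommRing A] (a b : A) : (cu a b).Monic :=
  Polynomial.monic_X_pow_sub_C _ (by norm_num)

theorem hh_map {A B : Type} [CommRing A] [CommRing B] (φ : A →+* B) (a b : A) :
    (hh a b).map φ = hh (φ a) (φ b) := by simp [hh]

theorem cu_map {A B : Type} [CommRing A] [CommRing B] (φ : A →+* B) (a b : A) :
    (cu a b).map (mapRingHom φ) = cu (φ a) (φ b) := by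
  simp [cu, hh_map]

/-- the remainder -/
noncomputable def rem (F : MvPolynomial (β ⊕ Fin (M + 1)) ℂ) : (RR β M D)[X][X] :=
  GF (D := D) F %ₘ cu (uv β M D 0) (uv β M D 1)

/-- the equations -/
def Eqs (D : ℕ) (FF : Set (MvPolynomial (β ⊕ Fin (M + 1)) ℂ)) : Set (RR β M D) :=
  {uv β M D 3 ^ 2 - (uv β M D 2 ^ 3 + uv β M D 0 * uv β M D 2 + uv β M D 1),
    uv β M D 5 ^ 2 - (uv β M D 4 ^ 3 + uv β M D 0 * uv β M D 4 + uv β M D 1)} ∪
  {Φ | ∃ F ∈ FF, ∃ e l : ℕ, Φ = ((rem (D := D) F).coeff e).coeff l}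

/-- the coordinate number `i` at the first or second point -/
noncomputable def co (β : Type) (M D : ℕ) (i : Fin (M + 1)) (n m : Fin 6) : RR β M D :=
  ∑ l : Fin (D + 1), MvPolynomial.X (Sum.inr (Sum.inl (i, l))) * uv β M D n ^ (l : ℕ) +
    (∑ l : Fin (D + 1), MvPolynomial.X (Sum.inr (Sum.inr (Sum.inl (i, l)))) * uv β M D n ^ (l : ℕ)) *
      uv β M D m

/-- the inequality -/
noncomputable def Psi (β : Type) (M D : ℕ) (i j : Fin (M + 1)) : RR β M D :=
  (4 * uv β M D 0 ^ 3 + 27 * uv β M D 1 ^ 2) *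
    (co β M D i 2 3 * co β M D j 4 5 - co β M D j 2 3 * co β M D i 4 5)

/-- the values of the polynomials at a point -/
theorem GF_eval (F : MvPolynomial (β ⊕ Fin (M + 1)) ℂ) (v : β ⊕ Un M D → ℂ) (x y : ℂ) :
    evalEval x y ((GF (D := D) F).map (mapRingHom (MvPolynomial.eval v))) =
      MvPolynomial.eval (Sum.elim (fun b => v (Sum.inl b))
        (fun i => (gpoly (fun l => v (Sum.inr (Sum.inl (i, l))))).eval x +
          (gpoly (fun l => v (Sum.inr (Sum.inr (Sum.inl (i, l)))))).eval x * y)) F := by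
  have key : ((evalEvalRingHom x y).comp ((mapRingHom (mapRingHom (MvPolynomial.eval v))).comp
      (MvPolynomial.eval₂Hom ((C : (RR β M D)[X] →+* (RR β M D)[X][X]).comp
      ((C : RR β M D →+* (RR β M D)[X]).comp MvPolynomial.C))
    (Sum.elim (fun b => C (C (MvPolynomial.X (Sum.inl b))))
      (fun i => C (gpoly (fun l => MvPolynomial.X (Sum.inr (Sum.inl (i, l))))) +
        C (gpoly (fun l => MvPolynomial.X (Sum.inr (Sum.inr (Sum.inl (i, l)))))) * X))))) =
      MvPolynomial.eval (Sum.elim (fun b => v (Sum.inl b))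
        (fun i => (gpoly (fun l => v (Sum.inr (Sum.inl (i, l))))).eval x +
          (gpoly (fun l => v (Sum.inr (Sum.inr (Sum.inl (i, l)))))).eval x * y)) := by
    refine MvPolynomial.ringHom_ext (fun r => ?_) (fun i => ?_)
    · simp
    · rcases i with b | i
      · simp
      · simp [gpoly_map, evalEval]
  exact RingHom.congr_fun key F

theorem coeffs_zero (a b : ℂ) (r : ℂ[X][X]) (hr : r.natDegree < 2)
    (h : ∀ x y : ℂ, y ^ 2 = x ^ 3 + a * x + b → evalEval x y r = 0) : r = 0 := by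
  have hform : ∀ x y : ℂ, evalEval x y r = (r.coeff 0).eval x + (r.coeff 1).eval x * y := by
    intro x y
    conv_lhs => rw [r.as_sum_range' 2 hr]
    simp [Finset.sum_range_succ, evalEval, Polynomial.eval_add]
  have hne : hh a b ≠ 0 := by
    intro h0
    have := congrArg (fun p => p.coeff 3) h0
    simp [hh, Polynomial.coeff_X, Polynomial.coeff_C] at this
  have hpt : ∀ x : ℂ, ¬ (hh a b).IsRoot x → (r.coeff 0).eval x = 0 ∧ (r.coeff 1).eval x = 0 := by
    intro x hx
    obtain ⟨y, hy⟩ := IsAlgClosed.exists_pow_nat_eq (x ^ 3 + a * x + b) (n := 2) (by norm_num)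
    have hy0 : y ≠ 0 := by
      rintro rfl
      apply hx
      simp [hh, Polynomial.IsRoot]
      rw [← hy]; ring
    have h1 := h x y hy
    have h2 := h x (-y) (by rw [neg_sq, hy])
    rw [hform] at h1 h2
    have h3 : (r.coeff 0).eval x = 0 := by linear_combination (h1 + h2) / 2
    refine ⟨h3, ?_⟩
    have h4 : (r.coeff 1).eval x * y = 0 := by linear_combination (h1 - h2) / 2
    exact (mul_eq_zero.1 h4).resolve_right hy0
  have hinf : {x : ℂ | ¬ (hh a b).IsRoot x}.Infinite := by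
    have hfin : {x : ℂ | (hh a b).IsRoot x}.Finite := by
      refine (hh a b).roots.toFinset.finite_toSet.subset ?_
      intro x hx
      simpa [hne] using hx
    have := hfin.infinite_compl
    exact this
  have h0 : r.coeff 0 = 0 := by
    refine Polynomial.eq_zero_of_infinite_isRoot _ (hinf.mono ?_)
    intro x hx
    exact (hpt x hx).1
  have h1 : r.coeff 1 = 0 := by
    refine Polynomial.eq_zero_of_infinite_isRoot _ (hinf.mono ?_)
    intro x hx
    exact (hpt x hx).2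
  rw [r.as_sum_range' 2 hr]
  simp [Finset.sum_range_succ, h0, h1]

theorem rem_iff (F : MvPolynomial (β ⊕ Fin (M + 1)) ℂ) (v : β ⊕ Un M D → ℂ) :
    (∀ e l : ℕ, MvPolynomial.eval v (((rem (D := D) F).coeff e).coeff l) = 0) ↔
      ∀ x y : ℂ, y ^ 2 = x ^ 3 + v (Sum.inr (Sum.inr (Sum.inr 0))) * x +
          v (Sum.inr (Sum.inr (Sum.inr 1))) →
        MvPolynomial.eval (Sum.elim (fun b => v (Sum.inl b))
          (fun i => (gpoly (fun l => v (Sum.inr (Sum.inl (i, l))))).eval x +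
          (gpoly (fun l => v (Sum.inr (Sum.inr (Sum.inl (i, l)))))).eval x * y)) F = 0 := by
  set a := v (Sum.inr (Sum.inr (Sum.inr 0))) with ha
  set b := v (Sum.inr (Sum.inr (Sum.inr 1))) with hb
  set r := (rem (D := D) F).map (mapRingHom (MvPolynomial.eval v)) with hr
  set g := (GF (D := D) F).map (mapRingHom (MvPolynomial.eval v)) with hg
  have hrg : r = g %ₘ cu a b := by
    rw [hr, hg, rem, Polynomial.map_modByMonic _ (cu_monic _ _), cu_map]
    simp [uv, ha, hb]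
  have hdeg : r.natDegree < 2 := by
    rw [hrg]
    have h1 := Polynomial.natDegree_modByMonic_lt g (cu_monic a b)
      (by
        intro h0
        have := congrArg Polynomial.natDegree h0
        rw [cu, Polynomial.natDegree_X_pow_sub_C] at this
        simp at this)
    rwa [cu, Polynomial.natDegree_X_pow_sub_C, ← cu] at h1
  have hval : ∀ x y : ℂ, y ^ 2 = x ^ 3 + a * x + b → evalEval x y r = evalEval x y g := by
    intro x y hxy
    have h1 := Polynomial.modByMonic_add_div g (cu a b)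
    have h2 : evalEval x y g = evalEval x y r + evalEval x y (cu a b) * evalEval x y (g /ₘ cu a b) := by
      conv_lhs => rw [← h1]
      rw [hrg]
      rw [Polynomial.evalEval_add, Polynomial.evalEval_mul]
    have h3 : evalEval x y (cu a b) = 0 := by
      simp [cu, hh, evalEval]
      rw [hxy]; ring
    rw [h2, h3]; ring
  have hiff : (∀ e l : ℕ, MvPolynomial.eval v (((rem (D := D) F).coeff e).coeff l) = 0) ↔ r = 0 := by
    constructor
    · intro h
      ext e l
      simpa [hr] using h e l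
    · intro h e l
      have := congrArg (fun q => (q.coeff e).coeff l) h
      simpa [hr] using this
  rw [hiff]
  constructor
  · intro h x y hxy
    rw [← GF_eval, ← hg, ← hval x y hxy, h]
    simp [evalEval]
  · intro h
    refine coeffs_zero a b r hdeg (fun x y hxy => ?_)
    rw [hval x y hxy, hg, GF_eval]
    exact h x y hxy

theorem co_eval (v : β ⊕ Un M D → ℂ) (i : Fin (M + 1)) (n m : Fin 6) :
    MvPolynomial.eval v (co β M D i n m) =
      (gpoly (fun l => v (Sum.inr (Sum.inl (i, l))))).eval (v (Sum.inr (Sum.inr (Sum.inr n)))) +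
      (gpoly (fun l => v (Sum.inr (Sum.inr (Sum.inl (i, l)))))).eval
        (v (Sum.inr (Sum.inr (Sum.inr n)))) * v (Sum.inr (Sum.inr (Sum.inr m))) := by
  simp [co, gpoly, uv, Polynomial.eval_finsetSum]

theorem ell_of (FF : Set (MvPolynomial (β ⊕ Fin (M + 1)) ℂ)) (c : β → ℂ) (s : Un M D → ℂ)
    (i j : Fin (M + 1)) (h1 : ∀ Φ ∈ Eqs D FF, MvPolynomial.eval (Sum.elim c s) Φ = 0)
    (h2 : MvPolynomial.eval (Sum.elim c s) (Psi β M D i j) ≠ 0) : Ell D FF c := by
  rw [Psi, map_mul, map_sub, map_mul, map_mul, co_eval, co_eval, co_eval, co_eval] at h2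
  obtain ⟨h3, h4⟩ := mul_ne_zero_iff.1 h2
  refine ⟨s (Sum.inr (Sum.inr 0)), s (Sum.inr (Sum.inr 1)),
    fun i => gpoly (fun l => s (Sum.inl (i, l))), fun i => gpoly (fun l => s (Sum.inr (Sum.inl (i, l)))),
    ?_, fun i => ⟨gpoly_deg _, gpoly_deg _⟩, ?_, i, j, s (Sum.inr (Sum.inr 2)),
    s (Sum.inr (Sum.inr 3)), s (Sum.inr (Sum.inr 4)), s (Sum.inr (Sum.inr 5)), ?_, ?_, ?_⟩
  · simpa [uv] using h3
  · intro F hF x y hxy
    have h5 := (rem_iff (D := D) F (Sum.elim c s)).1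
      (fun e l => h1 _ (Or.inr ⟨F, hF, e, l, rfl⟩)) x y (by simpa using hxy)
    simpa using h5
  · have := h1 _ (Or.inl (Or.inl rfl))
    simpa [uv, sub_eq_zero] using this
  · have := h1 _ (Or.inl (Or.inr rfl))
    simpa [uv, sub_eq_zero] using this
  · simpa [sub_eq_zero] using h4

theorem of_ell (FF : Set (MvPolynomial (β ⊕ Fin (M + 1)) ℂ)) (c : β → ℂ) (h : Ell D FF c) :
    ∃ (i j : Fin (M + 1)) (s : Un M D → ℂ),
      (∀ Φ ∈ Eqs D FF, MvPolynomial.eval (Sum.elim c s) Φ = 0) ∧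
      MvPolynomial.eval (Sum.elim c s) (Psi β M D i j) ≠ 0 := by
  obtain ⟨a, b, P, Q, hab, hdeg, hF, i, j, x, y, x', y', hxy, hxy', hne⟩ := h
  refine ⟨i, j, Sum.elim (fun q => (P q.1).coeff q.2) (Sum.elim (fun q => (Q q.1).coeff q.2)
    ![a, b, x, y, x', y']), ?_, ?_⟩
  · rintro Φ ((rfl | rfl) | ⟨F, hFF, e, l, rfl⟩)
    · simp [uv, hxy]
    · simp [uv, hxy']
    · revert e l
      rw [rem_iff]
      intro u w huw
      have h1 := hF F hFF u w (by simpa using huw)
      simp only [Sum.elim_inl, Sum.elim_inr]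
      simp only [gpoly_coeff _ (hdeg _).1, gpoly_coeff _ (hdeg _).2]
      exact h1
  · rw [Psi, map_mul, map_sub, map_mul, map_mul, co_eval, co_eval, co_eval, co_eval]
    refine mul_ne_zero ?_ ?_
    · simpa [uv] using hab
    · simp only [Sum.elim_inl, Sum.elim_inr]
      simp only [gpoly_coeff _ (hdeg _).1, gpoly_coeff _ (hdeg _).2]
      simpa [sub_eq_zero] using hne

end

theorem gen0 (h : Chv) (β : Type) [Finite β] (M D : ℕ) (FF : Set (MvPolynomial (β ⊕ Fin (M + 1)) ℂ))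
    (p : Ideal (MvPolynomial β ℂ)) [hp : p.IsPrime]
    (hd : ∀ G : MvPolynomial β ℂ, G ∉ p → ∃ c : β → ℂ, (∀ H ∈ p, MvPolynomial.eval c H = 0) ∧
      MvPolynomial.eval c G ≠ 0 ∧ Ell D FF c) :
    ∃ r : MvPolynomial β ℂ, r ∉ p ∧ ∀ c : β → ℂ, (∀ H ∈ p, MvPolynomial.eval c H = 0) →
      MvPolynomial.eval c r ≠ 0 → Ell D FF c := by
  classical
  have hpair : ∃ i j : Fin (M + 1), ∀ G : MvPolynomial β ℂ, G ∉ p →
      ∃ c : β → ℂ, (∀ H ∈ p, MvPolynomial.eval c H = 0) ∧
      MvPolynomial.eval c G ≠ 0 ∧ ∃ s : Un M D → ℂ,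
        (∀ Φ ∈ Eqs D FF, MvPolynomial.eval (Sum.elim c s) Φ = 0) ∧
        MvPolynomial.eval (Sum.elim c s) (Psi β M D i j) ≠ 0 := by
    by_contra hcon
    push Not at hcon
    choose G hG hGc using hcon
    have hprod : (∏ q : Fin (M + 1) × Fin (M + 1), G q.1 q.2) ∉ p := by
      intro hmem
      obtain ⟨q, -, hq⟩ := (Ideal.IsPrime.prod_mem_iff (p := p)).1 hmem
      exact hG q.1 q.2 hq
    obtain ⟨c, hc, hcG, hE⟩ := hd _ hprod
    obtain ⟨i, j, s, hs1, hs2⟩ := of_ell FF c hE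
    have hne : MvPolynomial.eval c (G i j) ≠ 0 := by
      intro h0
      apply hcG
      rw [map_prod]
      exact Finset.prod_eq_zero (Finset.mem_univ (i, j)) h0
    exact hs2 (hGc i j c hc hne s hs1)
  obtain ⟨i, j, hij⟩ := hpair
  obtain ⟨r, hr, hrc⟩ := h β (Un M D) (Eqs D FF) (Psi β M D i j) p hij
  refine ⟨r, hr, fun c hc hcr => ?_⟩
  obtain ⟨s, hs1, hs2⟩ := hrc c hc hcr
  exact ell_of FF c s i j hs1 hs2

end Pool.Agent.J6H98.FMG
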