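import Pool.Agent.J6H55.FM.Stm
import Pool.Agent.J6H98.FM.Par0

/-!
# Module FM-GEN: the fibres with a nonconstant map of bounded degree from an elliptic curve
-/

set_option autoImplicit false

namespace Pool.Agent.J6H98.FMG

theorem gen (h : Pool.Agent.J6H55.FM.S_chv) : Pool.Agent.J6H55.FM.S_gen := by
  intro β _ M D FF p _ hd
  exact gen0 h β M D FF p hd

end Pool.Agent.J6H98.FMG
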